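import Mathlib

/-!
# Project EX: finite groups with exponential wild inertia, statements (abstract part)
-/

set_option autoImplicit false
set_option linter.unusedSectionVars false

namespace Pool.Agent.Helper50.EX

open Polynomial Finset

/-- The binomial coefficient `a choose m` of an element `a` of a field (used for `m` less than
the characteristic). -/
noncomputable def bn {k : Type} [Field k] (a : k) (m : ℕ) : k :=
  (∏ i ∈ range m, (a - (i : k))) / (m.factorial : k)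

section inertia

variable {B : Type} [CommRing B] {G : Type} [Group G]

/-- The inertia group. -/
def inr (ρ : G →* (B ≃+* B)) (Q : Ideal B) : Subgroup G where
  carrier := {g | ∀ b, ρ g b - b ∈ Q}
  one_mem' := fun b => by
    rw [map_one, RingAut.one_apply, sub_self]
    exact Q.zero_mem
  mul_mem' := by
    intro g h hg hh b
    have h1 : ρ (g * h) b - b = (ρ g (ρ h b) - ρ h b) + (ρ h b - b) := by
      rw [map_mul, RingAut.mul_apply]
      ring
    rw [h1]
    exact Q.add_mem (hg _) (hh _)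
  inv_mem' := by
    intro g hg b
    have h1 : ρ g⁻¹ b - b = -(ρ g (ρ g⁻¹ b) - ρ g⁻¹ b) := by
      rw [← RingAut.mul_apply, ← map_mul, mul_inv_cancel, map_one, RingAut.one_apply]
      ring
    rw [h1]
    exact Q.neg_mem (hg _)

/-- The local ring at `Q` is monogenic over the invariants of `I` (in terms of interpolation). -/
def Mon (ρ : G →* (B ≃+* B)) (Q : Ideal B) (I : Subgroup G) : Prop :=
  ∃ (x : G → B) (b s : B) (P : B[X]), (∀ g ∈ I, x g ∈ Q) ∧
    (∀ g ∈ I, ∀ h ∈ I, x g = x h → g = h) ∧ P.coeff 1 ∉ Q ∧ s ∉ Q ∧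
    (∀ g ∈ I, P.eval (x g) = s * ρ g b) ∧
    ∀ c, ∃ s, s ∉ Q ∧ ∃ R : B[X], ∀ g ∈ I, R.eval (x g) = s * ρ g c

end inertia

/-- SEP: separation of the cosets of the inertia group (a `p`-group), copy of
`Pool.Graph.R_seed8.Y824.G4.Sep` (there: inertia of prime order). -/
def S_SEP : Prop := ∀ (B : Type) [CommRing B] (G : Type) [Group G] [Finite G]
  (ρ : G →* (B ≃+* B)) (Q : Ideal B) [Q.IsPrime] (p : ℕ) [Fact p.Prime] [CharP B p],
  IsPGroup p (inr ρ Q) →
    ∃ y, (∀ h ∈ inr ρ Q, ρ h y = y) ∧ ∀ g, g ∉ inr ρ Q → ρ g y - y ∉ Q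

/-- LT: the invariants of `I` are regular at the image of `Q`. -/
def S_LT : Prop := ∀ (B : Type) [CommRing B] [IsDomain B] (G : Type) [Group G] [Finite G]
  (ρ : G →* (B ≃+* B)) (Q : Ideal B) [Q.IsPrime] [IsRegularLocalRing (Localization.AtPrime Q)]
  (I : Subgroup G), I ≤ inr ρ Q → Mon ρ Q I →
  ∀ (C : Type) [CommRing C] (ι : C →+* B), Function.Injective ι →
    (∀ b, (∀ h ∈ I, ρ h b = b) ↔ ∃ c, ι c = b) →
    ∀ (q : Ideal C) [q.IsPrime], q = Q.comap ι → IsRegularLocalRing (Localization.AtPrime q)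

/-- DESC: the invariants of the group are regular. -/
def S_DESC : Prop := ∀ (B : Type) [CommRing B] [IsDomain B] [IsRegularRing B] (G : Type) [Group G]
  [Finite G] (ρ : G →* (B ≃+* B)) (p : ℕ) [Fact p.Prime] [CharP B p]
  (A : Type) [CommRing A] [IsNoetherianRing A] (j : A →+* B), Function.Injective j →
    (∀ b, (∀ g, ρ g b = b) ↔ ∃ a, j a = b) →
    (∀ Q : Ideal B, Q.IsPrime → IsPGroup p (inr ρ Q) ∧ Mon ρ Q (inr ρ Q)) →
    IsRegularRing A

section alg

variable {k M : Type} [Field k] [CommRing M] [IsDomain M] [Algebra k M] {G : Type} [Group G]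

/-- The local situation: `C` is a subalgebra of the domain `M`, `Q` a prime ideal of `C`, the group
acts on `M` by `σ` and preserves `C`, `I` is contained in the inertia group of `Q`, `X` is an
invariant element of `Q`, and the differences `σ τ c - c` are locally divisible by `X`. -/
structure Lo (C : Subalgebra k M) (Q : Ideal C) (σ : G → M →ₐ[k] M) (I : Subgroup G) (τ : G)
    (X : C) : Prop where
  prime : Q.IsPrime
  one : ∀ y, σ 1 y = y
  mul : ∀ g h y, σ (g * h) y = σ g (σ h y)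
  st : ∀ g, ∀ c ∈ C, σ g c ∈ C
  ine : ∀ g ∈ I, ∀ c : C, ∃ d ∈ Q, (d : M) = σ g c - c
  XQ : X ∈ Q
  X0 : (X : M) ≠ 0
  fX : ∀ g, σ g X = X
  tau : τ ∈ I
  pr : ∀ c : C, ∃ t a : C, t ∉ Q ∧ (t : M) * (σ τ c - c) = X * a

/-- The difference operator. -/
def df (σ : G → M →ₐ[k] M) (τ : G) (y : M) : M := σ τ y - y

/-- The elements `y` for which the values `σ g y` are interpolated by polynomials over the local
ring at the nodes `x g`. -/
def DX (C : Subalgebra k M) (Q : Ideal C) (σ : G → M →ₐ[k] M) (I : Subgroup G) (x : G → C)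
    (y : M) : Prop :=
  ∃ t : C, t ∉ Q ∧ ∃ P : C[X], ∀ g ∈ I, ((P.eval (x g) : C) : M) = t * σ g y

end alg

/-- AL1: the elements on which the group acts by the one-parameter group of `τ`. -/
def S_AL1 : Prop := ∀ (p : ℕ) [Fact p.Prime] (k M : Type) [Field k] [CharP k p] [CommRing M]
  [IsDomain M] [Algebra k M] (G : Type) [Group G] (C : Subalgebra k M) (Q : Ideal C)
  (σ : G → M →ₐ[k] M) (I : Subgroup G) (τ : G) (X : C), Lo C Q σ I τ X →
  ∀ (al : G → k) (y w : M), (∃ t c : C, t ∉ Q ∧ (c : M) = t * y) →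
    (∀ g ∈ I, σ g y = ∑ m ∈ range p, bn (al g) m • (df σ τ)^[m] y) → (X : M) * w = σ τ y - y →
    ∃ t : C, t ∉ Q ∧ ∃ P : C[X], (∀ g ∈ I, ((P.eval (al g • X) : C) : M) = t * σ g y) ∧
      ∃ q ∈ Q, ((P.coeff 1 : C) : M) = t * w + q

/-- AL2: inverses. -/
def S_AL2 : Prop := ∀ (k M : Type) [Field k] [CommRing M]
  [IsDomain M] [Algebra k M] (G : Type) [Group G] [Finite G] (C : Subalgebra k M) (Q : Ideal C)
  [Q.IsPrime]
  (σ : G → M →ₐ[k] M) (I : Subgroup G), (∀ y, σ 1 y = y) → ∀ (x : G → C), (∀ g ∈ I, x g ∈ Q) →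
  ∀ (y z : M), DX C Q σ I x y → y * z = 1 → (∃ t s : C, t ∉ Q ∧ s ∉ Q ∧ (s : M) = t * y) →
    DX C Q σ I x z

/-- AL3: sums, products and constants. -/
def S_AL3 : Prop := ∀ (k M : Type) [Field k] [CommRing M]
  [IsDomain M] [Algebra k M] (G : Type) [Group G] (C : Subalgebra k M) (Q : Ideal C)
  [Q.IsPrime] (σ : G → M →ₐ[k] M) (I : Subgroup G) (x : G → C),
  ∃ R : Subalgebra k M, ∀ y, y ∈ R ↔ DX C Q σ I x y

/-- AL4: the final step. -/
def S_AL4 : Prop := ∀ (p : ℕ) [Fact p.Prime] (k M : Type) [Field k] [CharP k p] [CommRing M]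
  [IsDomain M] [Algebra k M] (G : Type) [Group G] [Finite G] (C : Subalgebra k M) (Q : Ideal C)
  (σ : G → M →ₐ[k] M) (I : Subgroup G) (τ : G) (X : C), Lo C Q σ I τ X →
  ∀ (al : G → k) (y w : M), (∃ t c : C, t ∉ Q ∧ (c : M) = t * y) →
    (∀ g ∈ I, σ g y = ∑ m ∈ range p, bn (al g) m • (df σ τ)^[m] y) → (X : M) * w = σ τ y - y →
    (∃ t s : C, t ∉ Q ∧ s ∉ Q ∧ (s : M) = t * w) →
    (∀ g ∈ I, ∀ h ∈ I, al g = al h → g = h) →
    (∀ c : C, DX C Q σ I (fun g => al g • X) c) →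
    ∀ ρ' : G →* (C ≃+* C), (∀ g c, ((ρ' g c : C) : M) = σ g c) → Mon ρ' Q I

/-- The action of the subgroup `I` on `Φ` is exponential: it is contained in the one-parameter
group of one of its elements. -/
def ExpOn {k K : Type} [Field k] [Field K] [Algebra k K] {G : Type} [Group G]
    (ρ : G →* (K ≃ₐ[k] K)) (Φ : Finset K) (p : ℕ) (I : Subgroup G) : Prop :=
  ∃ τ ∈ I, ∀ g ∈ I, ∃ a : k, ∀ φ ∈ Φ,
    ρ g φ = ∑ m ∈ range p, bn a m • (fun z => ρ τ z - z)^[m] φ

open Matrix in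
/-- The representation of `GL₂` is given, up to powers of the determinant, by polynomials of degree
less than `p` in the entries of the matrices. -/
def IsPolyRep (p : ℕ) {k : Type} [Field k] {n : ℕ} (R : GL (Fin 2) k →* GL (Fin n) k) : Prop :=
  ∀ i j, ∃ (r : MvPolynomial (Fin 2 × Fin 2) k) (m : ℤ), r.totalDegree < p ∧
    ∀ g : GL (Fin 2) k, (R g).val i j =
      MvPolynomial.eval (fun s => g.val s.1 s.2) r * (((GeneralLinearGroup.det g) ^ m : kˣ) : k)

open Matrix in
/-- GL2: the finite `p`-subgroups of `GL₂` act exponentially. -/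
def S_GL2 : Prop := ∀ (p : ℕ) [Fact p.Prime] (k : Type) [Field k] [CharP k p] (n : ℕ)
  (R : GL (Fin 2) k →* GL (Fin n) k), IsPolyRep p R → ∀ (I : Type) [Group I] [Finite I],
  IsPGroup p I → ∀ π : I →* GL (Fin 2) k,
  ∃ τ : I, ∀ g : I, ∃ a : k, (R (π g)).val = ∑ m ∈ range p, bn a m • ((R (π τ)).val - 1) ^ m

end Pool.Agent.Helper50.EX
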