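import Pool.Agent.Helper50.EX.PRP
import Pool.Agent.Helper50.EX.DescP
import Pool.Agent.Helper8.EX.LT
import Pool.Agent.Helper32.EX.AL4
import Pool.Agent.Helper90.EX.AL1
import Pool.Agent.Helper90.EX.AL23
import Pool.Agent.Helper93.EX.RBP
import Pool.Agent.Helper68.EXW.ChP
import Pool.Agent.Helper46.EX.FNP

/-!
# Project EX: assembly (projective case), subgroups of `GL₂(k) × H`
-/

set_option autoImplicit false
set_option linter.unusedSectionVars false

namespace Pool.Agent.Helper50.EX.P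

open Finset Pool.Agent.Helper46.AQ Pool.Agent.Helper49.PN
  Pool.Agent.Helper12.PN Pool.Agent.Helper49 Pool.Agent.Helper50.EX MvPolynomial
  Pool.Agent.Helper46.EXP

/-- The regular models in terms of the basic data. -/
theorem t_RBP : S_RBP :=
  Pool.Agent.Helper93.EX.RP.rbp (Pool.Agent.Helper50.EX.P2.desc Pool.Agent.Helper8.EX.lt)
    (Pool.Agent.Helper68.EXW.chP t_PRP2 t_GNP Pool.Agent.Helper90.EX.al1
      Pool.Agent.Helper90.EX.al2 Pool.Agent.Helper90.EX.al3
      (Pool.Agent.Helper32.EX.al4 Pool.Agent.Helper90.EX.al1))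

/-- The linear case: the `p`-subgroups act exponentially. -/
theorem fin_gen (p : ℕ) [Fact p.Prime] (k : Type) [Field k] [Finite k] [CharP k p] (n : ℕ)
    (G : Type) [Group G] [Finite G] (M : G → Matrix (Fin (n + 1)) (Fin (n + 1)) k)
    (ρ : G →* (MvPolynomial (Fin (n + 1)) k ≃ₐ[k] MvPolynomial (Fin (n + 1)) k))
    (hρ : ∀ g j, ρ g (X j) = ∑ i, C (M g i j) * X i)
    (hM : ∀ P : Subgroup G, IsPGroup p P → ∃ τ ∈ P, ∀ g ∈ P, ∃ a : k,
      M g = ∑ m ∈ range p, bn a m • (M τ - 1) ^ m) :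
    HasModel (fx0 ρ) ∧ HasModel (fx ρ) := by
  classical
  have hRB := t_RBP
  have hhom := hom_one ρ (M := M) hρ
  have hdeg : ∀ g i, (ρ g (X i)).totalDegree ≤ 1 := fun g i => (hhom g i).totalDegree_le
  constructor
  · -- projective space
    have hact : ∀ (g : G) (j : Fin (n + 1)), rK ρ g (Ps k (n + 1) (X j)) =
        ∑ i, M g i j • Ps k (n + 1) (X i) := by
      intro g j
      rw [rK_Ps, hρ, map_sum]
      refine Finset.sum_congr rfl fun i _ => ?_
      rw [← MvPolynomial.smul_eq_C_mul, map_smul]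
    refine model_of hRB p ρ hhom (M := M)
      (T := LF fun i => Ps k (n + 1) (X i)) (LF_act hact) hM ?_
    rintro _ ⟨⟨γ, j⟩, rfl⟩
    left
    refine ⟨fun i => M γ i j, ?_⟩
    rw [LF_apply]
    change Ps k (n + 1) (ρ γ (X j)) = _
    rw [← rK_Ps, hact]
  · -- affine space
    have hsucc : ∀ (g : G) (j : Fin (n + 1)), hm ρ hdeg g (X j.succ) =
        ∑ i, M g i j • X i.succ := by
      intro g j
      rw [hm_succ, hρ, map_sum]
      refine Finset.sum_congr rfl fun i _ => ?_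
      rw [← MvPolynomial.smul_eq_C_mul, map_smul, hg_X]
    have hact : ∀ (g : G) (j : Fin (n + 1)), rK (hm ρ hdeg) g (Ps k (n + 1 + 1) (X j.succ)) =
        ∑ i, M g i j • Ps k (n + 1 + 1) (X i.succ) := by
      intro g j
      rw [rK_Ps, hsucc, map_sum]
      refine Finset.sum_congr rfl fun i _ => ?_
      rw [map_smul]
    have h0 := model_of hRB p (hm ρ hdeg) (hm_hom ρ hdeg)
      (M := M)
      (T := LF fun i : Fin (n + 1) => Ps k (n + 1 + 1) (X i.succ)) (LF_act hact) hM ?_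
    · obtain ⟨X', h1, g, h2, h3, ⟨h4⟩⟩ := h0
      exact ⟨X', h1, g, h2, h3, ⟨h4.trans (fxE ρ hdeg).symm.toRingEquiv⟩⟩
    · rintro _ ⟨⟨γ, j⟩, rfl⟩
      refine Fin.cases ?_ (fun j => ?_) j
      · right
        intro g
        change rK (hm ρ hdeg) g (Ps k (n + 1 + 1) (hm ρ hdeg γ (X 0))) =
          Ps k (n + 1 + 1) (hm ρ hdeg γ (X 0))
        rw [hm_zero, rK_Ps, hm_zero]
      · left
        refine ⟨fun i => M γ i j, ?_⟩
        rw [LF_apply]
        change Ps k (n + 1 + 1) (hm ρ hdeg γ (X j.succ)) = _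
        rw [← rK_Ps, hact]

end Pool.Agent.Helper50.EX.P
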