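import Pool.Agent.Helper50.EX.StmP

/-!
# Project EX: PRP and GNP
-/

set_option autoImplicit false
set_option linter.unusedSectionVars false

namespace Pool.Agent.Helper50.EX.P

open Finset Pool.Agent.W559.Mg Cardinal Pool.Agent.Helper46.AQ Pool.Agent.Helper49 Pool.Agent.Helper49.PQ
  Pool.Agent.Helper50.EX

/-- PRP with the additional clause that `X` is a unit of the Laurent ring. -/
def S_PRP2 : Prop := ∀ (k K : Type) [Field k] [Field K] [Algebra k K] [DecidableEq K] (G : Type)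
  [Group G] (ρ : G →* (K ≃ₐ[k] K)) (B : Subalgebra k K) (Φ : Finset K)
  (ι : Type) [Fintype ι] [DecidableEq ι] (A B' : ι → Finset K) (Ex : ι → ι → Prop)
  (N : ℕ → ι → ℕ) (L : Type) [AddCommGroup L] (dg : L ≃+ (ι → ℤ)) [IsDomain (ML K L)]
  (n : ℕ) (_ : PQ.Base ρ B Φ n) (hS : PQ.Sys ρ B Φ A B' Ex N) (D : PQ.Tp Φ A B')
  (F Γ : Type) [Field F] [Algebra (ML K L) F] [FaithfulSMul (ML K L) F]
  [LinearOrderedCommGroupWithZero Γ] (W : Valuation F Γ) (Q : Ideal (PQ.CC dg hS.pc D))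
  (e : ℕ → K),
  (∀ q : ℕ × ℕ × ℕ × ℕ, q.1 < Φ.card → q.2.1 < Φ.card → q.2.2.1 < Φ.card →
      q.2.2.2 < Φ.card → PQ.Cmp Ex (PQ.dq N q)) →
  PQ.Cen dg hS.pc D Q W → PQ.EnV B Φ A B' N (PQ.vK k L W) e → ∀ τ : G,
  PQ.Inr ρ (PQ.CC dg hS.pc D) W τ → ρ τ ≠ 1 →
  ∃ X : PQ.CC dg hS.pc D, X ∈ Q ∧ (X : ML K L) ≠ 0 ∧ IsUnit (X : ML K L) ∧ (∀ g, PQ.ga ρ L g X = X) ∧
    (∀ c : PQ.CC dg hS.pc D, ∃ t a : PQ.CC dg hS.pc D, t ∉ Q ∧
      (t : ML K L) * (PQ.ga ρ L τ c - c) = X * a) ∧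
    ∃ j < Φ.card, ∃ w : ML K L,
      (X : ML K L) * w = PQ.ga ρ L τ (PQ.sh dg N e j) - PQ.sh dg N e j ∧
      ∃ t s : PQ.CC dg hS.pc D, t ∉ Q ∧ s ∉ Q ∧ (s : ML K L) = t * w

theorem t_PRP2 : S_PRP2 := by
  intro k K _ _ _ _ G _ ρ B Φ ι _ _ A B' Ex N L _ dg _ n hb hS D F Γ _ _ _ _ W Q e hcmp h he τ hτ hτ1
  have hnQ : ∀ f : CC dg hS.pc D, W (algebraMap (ML K L) F f) = 1 → f ∉ Q :=
    fun f hf hfQ => ((h.lt f).2 hfQ).ne hf
  have hlQ : ∀ f : CC dg hS.pc D, W (algebraMap (ML K L) F f) < 1 → f ∈ Q := fun f => (h.lt f).1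
  classical
  obtain ⟨c₀, hc₀⟩ := hS.la
  obtain ⟨R, hm, -, -, -, hmin, hCle, -⟩ := lc_eq hb hS hc₀ h he
  set v : Valuation K Γ := vK k L W with hv
  set M := Φ.card with hM
  set C := CC dg hS.pc D with hC
  set J : Set ι := {i | al A B' v i < 1} with hJ
  have hst : ∀ f ∈ C, ga ρ L τ f ∈ C := fun f hf => ga_mem_CC hb hS.pc τ hf
  have hlt := h.inr hb hS he hτ
  have hal1 := hS.pc.le1 _ v h.pos
  have hal0 := hS.pc.al_ne v
  have he0 : ∀ j < M, e j ≠ 0 := fun j hj => hb.fam.n0 _ (he.en.mem hj)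
  -- the moved elements
  set mv := (range M).filter fun j => ρ τ (e j) ≠ e j with hmv
  have hne : mv.Nonempty := by
    by_contra hcon
    rw [Finset.not_nonempty_iff_eq_empty, hmv, Finset.filter_eq_empty_iff] at hcon
    refine hτ1 (eq_one_of_fix hb fun s hs => ?_)
    obtain ⟨j, hj, rfl⟩ := he.en.exists_eq hs
    exact not_not.1 (hcon (Finset.mem_range.2 hj))
  have hσ : ∀ j, ∃ l, j ∈ mv → l < M ∧ e l = ρ τ (e j) - e j ∧ j ≤ l := by
    intro j
    by_cases hj : j ∈ mv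
    · obtain ⟨h1, h2⟩ := Finset.mem_filter.1 hj
      have h3 : e j ∈ Φ := he.en.mem (Finset.mem_range.1 h1)
      obtain ⟨l, hl, h4⟩ := he.en.exists_eq (hb.sub _ (hb.fam.st τ _ h3) _ h3 h2)
      refine ⟨l, fun _ => ⟨hl, h4, ?_⟩⟩
      by_contra hcon
      have h5 : v (e j) ≤ v (e l) := he.anti hS (by omega) (Finset.mem_range.1 h1)
      have h6 := hlt _ h3
      rw [← h4] at h6
      exact absurd h6 (not_lt.2 h5)
    · exact ⟨0, fun h1 => absurd h1 hj⟩
  choose σ hσ using hσ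
  let d : ℕ → ι → ℤ := fun j => vz (N (σ j)) - vz (N j)
  have hd0 : ∀ j ∈ mv, ∀ i, 0 ≤ d j i := by
    intro j hj i
    have := hS.mono _ _ i (hσ j hj).2.2
    simp only [d, vz, Pi.sub_apply]
    omega
  obtain ⟨j0, hj0, hmax⟩ := Finset.exists_max_image mv (fun j => mz (al A B' v) (d j)) hne
  have hj0M : j0 < M := Finset.mem_range.1 (Finset.mem_filter.1 hj0).1
  have hcomp : ∀ j ∈ mv, ∀ i ∈ J, 0 ≤ d j i - d j0 i := by
    intro j hj i' hi'
    by_contra hcon
    push Not at hcon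
    have hjM : j < M := Finset.mem_range.1 (Finset.mem_filter.1 hj).1
    have hc := hcmp (σ j, j, σ j0, j0) (hσ j hj).1 hjM (hσ j0 hj0).1 hj0M
    have hdq : dq N (σ j, j, σ j0, j0) = d j - d j0 := rfl
    rw [hdq] at hc
    have h1 : ∀ i, al A B' v i < 1 → 0 ≤ (d j0 - d j) i := by
      intro i hi
      by_contra hcon'
      rw [Pi.sub_apply] at hcon'
      refine hc i i' (fun hE => ?_) ?_ ?_
      · rcases hS.ex _ v h.pos i i' hE with h2 | h2
        · exact hi.ne h2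
        · exact (show al A B' v i' < 1 from hi').ne h2
      · rw [Pi.sub_apply]
        omega
      · rw [Pi.sub_apply]
        exact hcon
    have h2 : mz (al A B' v) (d j0 - d j) < 1 :=
      mz_lt_one' hal1 h1 (i := i') (by rw [Pi.sub_apply]; omega) hi'
    have h3 : mz (al A B' v) (d j0) < mz (al A B' v) (d j) := by
      have h4 : d j0 = d j + (d j0 - d j) := by rw [add_sub_cancel]
      rw [h4, mz_add hal0]
      calc mz (al A B' v) (d j) * mz (al A B' v) (d j0 - d j) < mz (al A B' v) (d j) * 1 :=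
            mul_lt_mul_of_pos_left h2 (zero_lt_iff.2 (mz_ne_zero hal0 _))
        _ = _ := mul_one _
    exact absurd (hmax j hj) (not_le.2 h3)
  set X : ML K L := xz K dg (d j0) with hXdef
  have hX : X ∈ C := xz_mem_CC' hS.pc (hd0 j0 hj0)
  -- the difference of the rescaled elements
  have hdiff : ∀ j ∈ mv, ga ρ L τ (sh dg N e j) - sh dg N e j =
      sh dg N e (σ j) * xz K dg (d j) := by
    intro j hj
    unfold sh xz
    rw [ga_mo, ← mo_sub, ← (hσ j hj).2.1, mo_mul, mul_one, ← map_add]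
    congr 2
    change vz (N j) = vz (N (σ j)) + -(vz (N (σ j)) - vz (N j))
    abel
  have hxz1 : ∀ m : ι → ℤ, (∀ i ∈ J, m i = 0) → W (algebraMap (ML K L) F (xz K dg m)) = 1 := by
    intro m hm'
    rw [val_xz, h.om]
    unfold mz
    refine Finset.prod_eq_one fun i _ => ?_
    by_cases hi : i ∈ J
    · rw [hm' i hi, zpow_zero]
    · have h1 : al A B' v i = 1 := le_antisymm (hal1 i) (not_lt.1 hi)
      rw [← hv, h1, one_zpow]
  -- the generators
  have hgn : Gn dg J N e M (DD C W (ga ρ L τ) X hX) := by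
    have hx : ∀ i, xz K dg (Pi.single i 1) ∈ DD C W (ga ρ L τ) X hX := fun i =>
      ⟨1, C.one_mem, by rw [map_one, map_one], by rw [one_mul]; exact xz_mem_CC hS.pc i, 0,
        C.zero_mem, by rw [ga_xz, sub_self, mul_zero, mul_zero]⟩
    have hs : ∀ j < M, sh dg N e j ∈ DD C W (ga ρ L τ) X hX := by
      intro j hj
      by_cases hjm : j ∈ mv
      · let m' : ι → ℤ := fun i => if i ∈ J then 0 else |d j i - d j0 i|
        have hm'0 : ∀ i, 0 ≤ m' i := by
          intro i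
          change 0 ≤ (if i ∈ J then (0 : ℤ) else |d j i - d j0 i|)
          split_ifs
          · exact le_rfl
          · exact abs_nonneg _
        have hm'1 : ∀ i, 0 ≤ (d j - d j0 + m') i := by
          intro i
          rw [Pi.add_apply, Pi.sub_apply]
          change 0 ≤ d j i - d j0 i + (if i ∈ J then (0 : ℤ) else |d j i - d j0 i|)
          split_ifs with hi
          · rw [add_zero]
            exact hcomp j hjm i hi
          · have := neg_abs_le (d j i - d j0 i)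
            omega
        have hσM := (hσ j hjm).1
        refine ⟨ph dg N e j * ph dg N e (σ j) * xz K dg m', ?_, ?_, ?_,
          ph dg N e j * ph dg N e (σ j + 1) * xz K dg (d j - d j0 + m'), ?_, ?_⟩
        · exact C.mul_mem (C.mul_mem (ph_mem hS he.en (by omega)) (ph_mem hS he.en (by omega)))
            (xz_mem_CC' hS.pc hm'0)
        · rw [map_mul, map_mul, map_mul, map_mul, h.ph hS he (by omega), h.ph hS he (by omega),
            hxz1 m' (fun i hi => if_pos hi), one_mul, one_mul]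
        · have h1 : ph dg N e j * ph dg N e (σ j) * xz K dg m' * sh dg N e j =
              ph dg N e (j + 1) * ph dg N e (σ j) * xz K dg m' := by
            rw [ph_succ]
            ring
          rw [h1]
          exact C.mul_mem (C.mul_mem (ph_mem hS he.en (by omega)) (ph_mem hS he.en (by omega)))
            (xz_mem_CC' hS.pc hm'0)
        · exact C.mul_mem (C.mul_mem (ph_mem hS he.en (by omega)) (ph_mem hS he.en (by omega)))
            (xz_mem_CC' hS.pc hm'1)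
        · rw [hdiff j hjm, ph_succ, xz_add, hXdef]
          have h1 : xz K dg (d j) = xz K dg (d j0) * xz K dg (d j - d j0) := by
            rw [← xz_add, add_sub_cancel]
          rw [h1]
          ring
      · have hfix : ρ τ (e j) = e j := by
          by_contra hcon
          exact hjm (Finset.mem_filter.2 ⟨Finset.mem_range.2 hj, hcon⟩)
        refine ⟨ph dg N e j, ph_mem hS he.en (by omega), h.ph hS he (by omega), ?_, 0,
          C.zero_mem, ?_⟩
        · rw [← ph_succ]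
          exact ph_mem hS he.en (by omega)
        · have h1 : ga ρ L τ (sh dg N e j) = sh dg N e j := by
            unfold sh
            rw [ga_mo, hfix]
          rw [h1, sub_self, mul_zero, mul_zero]
    refine ⟨hx, fun i hi => ?_, hs, fun j hj => ?_⟩
    · refine DD_inv hst hτ (hx i) (by rw [Pi.single_neg, xz_inv]) (hxz1 _ fun l hl => ?_)
      rw [Pi.single_eq_of_ne]
      rintro rfl
      exact hi hl
    · exact DD_inv hst hτ (hs j hj) (sh_mul_shi (he0 j hj)) (h.sh hS he hj)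
  have hRle := hmin _ hgn
  have hinvh : (∏ j, hz dg c₀ D j) * ∏ j, hzi dg c₀ D j = 1 := by
    rw [← Finset.prod_mul_distrib]
    exact Finset.prod_eq_one fun j _ => hz_mul_hzi c₀ D j
  have hCDD : C ≤ DD C W (ga ρ L τ) X hX := by
    refine hCle.trans (lc_le hm hinvh hRle (DD_inv hst hτ (hRle hm) hinvh ?_))
    exact h.one_of_inv (C.prod_mem fun j _ => hz_mem hc₀ hS.pc j)
      (C.prod_mem fun j _ => hzi_mem hc₀ hS.pc j) hinvh
  have hσ0 := hσ j0 hj0
  have hWX : W (algebraMap (ML K L) F X) < 1 := by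
    have h1 : v (e (σ j0)) < v (e j0) := by
      rw [hσ0.2.1]
      exact hlt _ (he.en.mem hj0M)
    rw [hXdef, val_xz, h.om, ← hv]
    have h2 : mz (al A B' v) (d j0) * v (e j0) = v (e (σ j0)) := by
      rw [he.va _ hj0M, he.va _ hσ0.1, ← mz_add hal0]
      congr 1
      change vz (N (σ j0)) - vz (N j0) + vz (N j0) = vz (N (σ j0))
      abel
    rw [← h2] at h1
    have h3 : 0 < v (e j0) := zero_lt_iff.2 ((Valuation.ne_zero_iff _).2 (he0 _ hj0M))
    by_contra hcon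
    push Not at hcon
    refine absurd h1 (not_lt.2 ?_)
    calc v (e j0) = 1 * v (e j0) := (one_mul _).symm
      _ ≤ _ := mul_le_mul_left hcon _
  refine ⟨⟨X, hX⟩, hlQ _ hWX, ?_, IsUnit.of_mul_eq_one (xz K dg (-(d j0))) (by
    change X * _ = 1
    rw [hXdef, xz_inv]), fun g => ga_xz g _, fun c => ?_, j0, hj0M,
    sh dg N e (σ j0), ?_, ⟨ph dg N e (σ j0), ph_mem hS he.en (by omega)⟩,
    ⟨ph dg N e (σ j0 + 1), ph_mem hS he.en (by omega)⟩, hnQ _ (h.ph hS he (by omega)),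
    hnQ _ (h.ph hS he (by omega)), ph_succ _⟩
  · intro h0
    have h1 : X * xz K dg (-(d j0)) = 1 := by rw [hXdef, xz_inv]
    have h2 : X = 0 := h0
    rw [h2, zero_mul] at h1
    exact zero_ne_one h1
  · obtain ⟨t, ht, htW, -, a, ha, hta⟩ := hCDD c.2
    exact ⟨⟨t, ht⟩, ⟨a, ha⟩, hnQ _ htW, hta⟩
  · change X * sh dg N e (σ j0) = _
    rw [hdiff j0 hj0, mul_comm]

theorem t_PRP : S_PRP := by
  intro k K _ _ _ _ G _ ρ B Φ ι _ _ A B' Ex N L _ dg _ n hb hS D F Γ _ _ _ _ W Q e hcmp h he τ hτ hτ1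
  obtain ⟨X, h1, h2, -, h3⟩ := t_PRP2 k K G ρ B Φ ι A B' Ex N L dg n hb hS D F Γ W Q e hcmp h he τ hτ
    hτ1
  exact ⟨X, h1, h2, h3⟩

theorem t_GNP : S_GNP := by
  intro k K _ _ _ _ G _ ρ B Φ ι _ _ A B' Ex N L _ dg _ n hb hS D F Γ _ _ _ _ W Q e h he
  classical
  obtain ⟨c₀, hc₀⟩ := hS.la
  obtain ⟨R0, hm, -, -, -, hmin, hCle, -⟩ := lc_eq hb hS hc₀ h he
  set v : Valuation K Γ := vK k L W with hv
  set M := Φ.card with hM
  set J : Set ι := {i | al A B' v i < 1} with hJ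
  have hal1 := hS.pc.le1 _ v h.pos
  have he0 : ∀ j < M, e j ≠ 0 := fun j hj => hb.fam.n0 _ (he.en.mem hj)
  have hnQ : ∀ f : CC dg hS.pc D, W (algebraMap (ML K L) F f) = 1 → f ∉ Q :=
    fun f hf hfQ => ((h.lt f).2 hfQ).ne hf
  have h1Q : (1 : CC dg hS.pc D) ∉ Q := hnQ 1 (by
    change W (algebraMap (ML K L) F 1) = 1
    rw [map_one, map_one])
  have hxz1 : ∀ m : ι → ℤ, (∀ i ∈ J, m i = 0) → W (algebraMap (ML K L) F (xz K dg m)) = 1 := by
    intro m hm'
    rw [val_xz, h.om]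
    unfold mz
    refine Finset.prod_eq_one fun i _ => ?_
    by_cases hi : i ∈ J
    · rw [hm' i hi, zpow_zero]
    · have h1 : al A B' v i = 1 := le_antisymm (hal1 i) (not_lt.1 hi)
      rw [← hv, h1, one_zpow]
  refine ⟨fun j hj => ⟨⟨ph dg N e j, ph_mem hS he.en (by omega)⟩,
    ⟨ph dg N e (j + 1), ph_mem hS he.en (by omega)⟩, hnQ _ (h.ph hS he (by omega)), ph_succ _⟩,
    fun R hx hs hinv => ?_⟩
  have hgn : Gn dg J N e M R := by
    refine ⟨hx, fun i hi => ?_, hs, fun j hj => ?_⟩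
    · refine hinv _ _ (hx i) (by rw [Pi.single_neg, xz_inv])
        ⟨1, ⟨xz K dg (Pi.single i 1), xz_mem_CC hS.pc i⟩, h1Q, hnQ _ (hxz1 _ fun l hl => ?_),
          (one_mul _).symm⟩
      rw [Pi.single_eq_of_ne]
      rintro rfl
      exact hi hl
    · exact hinv _ _ (hs j hj) (sh_mul_shi (he0 j hj))
        ⟨⟨ph dg N e j, ph_mem hS he.en (by omega)⟩,
          ⟨ph dg N e (j + 1), ph_mem hS he.en (by omega)⟩, hnQ _ (h.ph hS he (by omega)),
          hnQ _ (h.ph hS he (by omega)), ph_succ _⟩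
  have hRle := hmin _ hgn
  have hinvh : (∏ j, hz dg c₀ D j) * ∏ j, hzi dg c₀ D j = 1 := by
    rw [← Finset.prod_mul_distrib]
    exact Finset.prod_eq_one fun j _ => hz_mul_hzi c₀ D j
  have hz1 : (∏ j, hz dg c₀ D j) ∈ CC dg hS.pc D :=
    (CC dg hS.pc D).prod_mem fun j _ => hz_mem hc₀ hS.pc j
  refine hCle.trans (lc_le hm hinvh hRle (hinv _ _ (hRle hm) hinvh
    ⟨1, ⟨_, hz1⟩, h1Q, hnQ _ ?_, (one_mul _).symm⟩))
  exact h.one_of_inv hz1 ((CC dg hS.pc D).prod_mem fun j _ => hzi_mem hc₀ hS.pc j) hinvh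

end Pool.Agent.Helper50.EX.P
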