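import Pool.Agent.Helper67.EX.GL2

/-!
# Project EX: subgroups of `GL₂(k) × H`
-/

set_option autoImplicit false
set_option linter.unusedSectionVars false

namespace Pool.Agent.Helper50.EX

open Finset Matrix

/-- The `p`-subgroups of a finite subgroup of `GL₂(k) × H`, `H` of order prime to `p`. -/
theorem mat_prod {p : ℕ} [hp : Fact p.Prime] {k : Type} [Field k] [CharP k p] {n : ℕ}
    {H : Type} [Group H] [Finite H] (hH : ¬ p ∣ Nat.card H)
    {R : GL (Fin 2) k × H →* GL (Fin n) k} (hR : IsPolyRep p (R.comp (MonoidHom.inl _ _)))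
    (G : Subgroup (GL (Fin 2) k × H)) [Finite G] (P : Subgroup G) (hP : IsPGroup p P) :
    ∃ τ ∈ P, ∀ g ∈ P, ∃ a : k,
      (R (g : GL (Fin 2) k × H)).val =
        ∑ m ∈ range p, bn a m • ((R (τ : GL (Fin 2) k × H)).val - 1) ^ m := by
  let π : P →* GL (Fin 2) k := (MonoidHom.fst _ _).comp (G.subtype.comp P.subtype)
  have h2 : ∀ g : P, ((g : G) : GL (Fin 2) k × H).2 = 1 := by
    intro g
    obtain ⟨r, hr⟩ := hP g
    have h3 : ((g : G) : GL (Fin 2) k × H).2 ^ p ^ r = 1 := by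
      have h4 := congrArg (fun x : P => ((x : G) : GL (Fin 2) k × H).2) hr
      exact h4
    have h5 : orderOf (((g : G) : GL (Fin 2) k × H).2) ∣ p ^ r := orderOf_dvd_of_pow_eq_one h3
    have h6 : orderOf (((g : G) : GL (Fin 2) k × H).2) ∣ Nat.card H := orderOf_dvd_natCard _
    have h7 : Nat.Coprime (p ^ r) (Nat.card H) :=
      ((Nat.Prime.coprime_iff_not_dvd hp.out).2 hH).pow_left r
    have h8 := Nat.eq_one_of_dvd_coprimes h7 h5 h6
    exact orderOf_eq_one_iff.1 h8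
  have h3 : ∀ g : P, R ((g : G) : GL (Fin 2) k × H) = (R.comp (MonoidHom.inl _ _)) (π g) := by
    intro g
    change R _ = R (((g : G) : GL (Fin 2) k × H).1, 1)
    congr 1
    exact Prod.ext rfl (h2 g)
  obtain ⟨τ, hτ⟩ := Pool.Agent.Helper67.EX.gl2 p k n _ hR P hP π
  refine ⟨τ, τ.2, fun g hg => ?_⟩
  obtain ⟨a, ha⟩ := hτ ⟨g, hg⟩
  refine ⟨a, ?_⟩
  rw [h3 ⟨g, hg⟩, h3 τ]
  exact ha

end Pool.Agent.Helper50.EX
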