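import Pool.Agent.Helper50.EX.Stm
import Pool.Agent.Helper49.PQ.Main

/-!
# Project EX: statements for the projective charts (`Pool.Agent.Helper49.PQ`)
-/

set_option autoImplicit false
set_option linter.unusedSectionVars false

namespace Pool.Agent.Helper50.EX.P

open Finset Pool.Agent.W559.Mg Cardinal Pool.Agent.Helper46.AQ Pool.Agent.Helper49.PN
  Pool.Agent.Helper12.PN Pool.Agent.Helper49 Pool.Agent.Helper50.EX

/-- PRP: the differences of one element `τ` of the inertia group (first part of the proof of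
`Pool.Agent.Helper49.PQ.princ` in `Loc7.lean`: `X = xz K dg (d j0)`, `w = sh dg N e (σ j0)`). -/
def S_PRP : Prop := ∀ (k K : Type) [Field k] [Field K] [Algebra k K] [DecidableEq K] (G : Type)
  [Group G] (ρ : G →* (K ≃ₐ[k] K)) (B : Subalgebra k K) (Φ : Finset K)
  (ι : Type) [Fintype ι] [DecidableEq ι] (A B' : ι → Finset K) (Ex : ι → ι → Prop)
  (N : ℕ → ι → ℕ) (L : Type) [AddCommGroup L] (dg : L ≃+ (ι → ℤ)) [IsDomain (ML K L)]
  (n : ℕ) (_ : PQ.Base ρ B Φ n) (hS : PQ.Sys ρ B Φ A B' Ex N) (D : PQ.Tp Φ A B')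
  (F Γ : Type) [Field F] [Algebra (ML K L) F] [FaithfulSMul (ML K L) F]
  [LinearOrderedCommGroupWithZero Γ] (W : Valuation F Γ) (Q : Ideal (PQ.CC dg hS.pc D))
  (e : ℕ → K),
  (∀ q : ℕ × ℕ × ℕ × ℕ, q.1 < Φ.card → q.2.1 < Φ.card → q.2.2.1 < Φ.card →
      q.2.2.2 < Φ.card → PQ.Cmp Ex (PQ.dq N q)) →
  PQ.Cen dg hS.pc D Q W → PQ.EnV B Φ A B' N (PQ.vK k L W) e → ∀ τ : G,
  PQ.Inr ρ (PQ.CC dg hS.pc D) W τ → ρ τ ≠ 1 →
  ∃ X : PQ.CC dg hS.pc D, X ∈ Q ∧ (X : ML K L) ≠ 0 ∧ (∀ g, PQ.ga ρ L g X = X) ∧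
    (∀ c : PQ.CC dg hS.pc D, ∃ t a : PQ.CC dg hS.pc D, t ∉ Q ∧
      (t : ML K L) * (PQ.ga ρ L τ c - c) = X * a) ∧
    ∃ j < Φ.card, ∃ w : ML K L,
      (X : ML K L) * w = PQ.ga ρ L τ (PQ.sh dg N e j) - PQ.sh dg N e j ∧
      ∃ t s : PQ.CC dg hS.pc D, t ∉ Q ∧ s ∉ Q ∧ (s : ML K L) = t * w

/-- GNP: generation of the chart up to localization (`lc_eq`, `lc_le`, `ph_mem`, `Cen.ph`,
`Cen.one_of_inv`; see the end of the proof of `princ` in `Loc7.lean`). -/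
def S_GNP : Prop := ∀ (k K : Type) [Field k] [Field K] [Algebra k K] [DecidableEq K] (G : Type)
  [Group G] (ρ : G →* (K ≃ₐ[k] K)) (B : Subalgebra k K) (Φ : Finset K)
  (ι : Type) [Fintype ι] [DecidableEq ι] (A B' : ι → Finset K) (Ex : ι → ι → Prop)
  (N : ℕ → ι → ℕ) (L : Type) [AddCommGroup L] (dg : L ≃+ (ι → ℤ)) [IsDomain (ML K L)]
  (n : ℕ) (_ : PQ.Base ρ B Φ n) (hS : PQ.Sys ρ B Φ A B' Ex N) (D : PQ.Tp Φ A B')
  (F Γ : Type) [Field F] [Algebra (ML K L) F] [FaithfulSMul (ML K L) F]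
  [LinearOrderedCommGroupWithZero Γ] (W : Valuation F Γ) (Q : Ideal (PQ.CC dg hS.pc D))
  (e : ℕ → K),
  PQ.Cen dg hS.pc D Q W → PQ.EnV B Φ A B' N (PQ.vK k L W) e →
  (∀ j < Φ.card, ∃ t c : PQ.CC dg hS.pc D, t ∉ Q ∧ (c : ML K L) = t * PQ.sh dg N e j) ∧
  ∀ R : Subalgebra k (ML K L), (∀ i, PQ.xz K dg (Pi.single i 1) ∈ R) →
    (∀ j < Φ.card, PQ.sh dg N e j ∈ R) →
    (∀ y z : ML K L, y ∈ R → y * z = 1 →
      (∃ t s : PQ.CC dg hS.pc D, t ∉ Q ∧ s ∉ Q ∧ (s : ML K L) = t * y) → z ∈ R) →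
    PQ.CC dg hS.pc D ≤ R

/-- ChP: the inertia groups on the charts. -/
def S_ChP : Prop := ∀ (p : ℕ) [Fact p.Prime] (k K : Type) [Field k] [CharP k p] [Field K]
  [Algebra k K] [DecidableEq K] (G : Type) [Group G] [Finite G] (ρ : G →* (K ≃ₐ[k] K))
  (B : Subalgebra k K) (Φ : Finset K)
  (ι : Type) [Fintype ι] [DecidableEq ι] (A B' : ι → Finset K) (Ex : ι → ι → Prop)
  (N : ℕ → ι → ℕ) (L : Type) [AddCommGroup L] (dg : L ≃+ (ι → ℤ)) [IsDomain (ML K L)]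
  (n : ℕ) (hb : PQ.Base ρ B Φ n) (hS : PQ.Sys ρ B Φ A B' Ex N),
  (∀ q : ℕ × ℕ × ℕ × ℕ, q.1 < Φ.card → q.2.1 < Φ.card → q.2.2.1 < Φ.card →
      q.2.2.2 < Φ.card → PQ.Cmp Ex (PQ.dq N q)) →
  (∀ γ, ρ γ = 1 → γ = 1) → ∀ (D : PQ.Tp Φ A B') (Q : Ideal (PQ.CC dg hS.pc D)), Q.IsPrime →
  (IsPGroup p (inr (PQ.rC hb hS.pc D dg) Q) → ExpOn ρ Φ p (inr (PQ.rC hb hS.pc D dg) Q)) →
  IsPGroup p (inr (PQ.rC hb hS.pc D dg) Q) ∧
    Mon (PQ.rC hb hS.pc D dg) Q (inr (PQ.rC hb hS.pc D dg) Q)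

/-- RBP: regular models of the quotient in terms of the basic data (copy of `Fin1.smooth_inv` and
`Fin.hasModel_of_base` with DESC and ChP). -/
def S_RBP : Prop := ∀ (p : ℕ) [Fact p.Prime] (k K : Type) [Field k] [Finite k] [CharP k p]
  [Field K] [Algebra k K] [DecidableEq K] (G : Type) [Group G] [Finite G] (ρ : G →* (K ≃ₐ[k] K))
  (B : Subalgebra k K) (Φ : Finset K) (K0 F : IntermediateField k K) (t : K) (n : ℕ),
  PQ.Base ρ B Φ n → (∀ I : Subgroup G, IsPGroup p I → ExpOn ρ Φ p I) →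
  (∀ γ, ρ γ = 1 → γ = 1) → PQ.Scl ρ Φ K0 F t → t ≠ 0 → HasModel F

open Matrix in
/-- FNP: the final theorem in the projective case (copy of `Main.hasModel_lin` and
`Main.hasModel_aff`; the second part from the first one with the representation
`R ⊕ 1`, homogenization `hm`, or directly). -/
def S_FNP : Prop := ∀ (p : ℕ) [Fact p.Prime] (k : Type) [Field k] [Finite k] [CharP k p]
  (n : ℕ) (R : GL (Fin 2) k →* GL (Fin (n + 1)) k), IsPolyRep p R →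
  ∀ (G : Subgroup (GL (Fin 2) k))
    (ρ : G →* (MvPolynomial (Fin (n + 1)) k ≃ₐ[k] MvPolynomial (Fin (n + 1)) k)),
  (∀ g j, ρ g (MvPolynomial.X j) =
    ∑ i, MvPolynomial.C ((R (g : GL (Fin 2) k)).val i j) * MvPolynomial.X i) →
    HasModel (fx0 ρ) ∧ HasModel (fx ρ)

end Pool.Agent.Helper50.EX.P
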